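import Mathlib

/-!
# Two-point interior level sets of Weierstrass functions (MP_935c4d_an, Q1)

Let `b ≥ 2`, `0 < α < 1` and `3b/4 ≤ b^α ≤ b - 7` (for instance `b = 40`, `b^α = 30`). There is a
nonempty open set `U` of `Lip(S¹)` such that every `g` in `U` has an interior level `y` whose level
set consists of two points. So the property of Q1 is not prevalent for these `b, α`.
-/

set_option autoImplicit false

open Set MeasureTheory

namespace Pool.Agent.Results.MP_935c4d_an.TwoPointLevels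

/-- the circle `ℝ/ℤ`. -/
abbrev Circ : Type := AddCircle (1 : ℝ)

/-- The real vector space of Lipschitz functions on the circle. -/
def lipSub : Submodule ℝ (Circ → ℝ) where
  carrier := {g | ∃ K : NNReal, LipschitzWith K g}
  add_mem' := by
    rintro a b ⟨K, hK⟩ ⟨L, hL⟩
    exact ⟨K + L, hK.add hL⟩
  zero_mem' := ⟨0, LipschitzWith.const (0 : ℝ)⟩
  smul_mem' := by
    rintro c a ⟨K, hK⟩
    refine ⟨‖c‖₊ * K, ?_⟩
    have := (lipschitzWith_smul c).comp hK
    exact this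

/-- `Lip(S¹)`. -/
def LipSpace : Type := lipSub

noncomputable instance : AddCommGroup LipSpace := inferInstanceAs (AddCommGroup lipSub)

noncomputable instance : Module ℝ LipSpace := inferInstanceAs (Module ℝ lipSub)

/-- the underlying function of an element of `Lip(S¹)`. -/
def LipSpace.fn (g : LipSpace) : Circ → ℝ := fun x => Subtype.val (p := fun g => g ∈ lipSub) g x

lemma LipSpace.lip (g : LipSpace) : ∃ K : NNReal, LipschitzWith K g.fn :=
  Subtype.property (p := fun g => g ∈ lipSub) g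

lemma LipSpace.fn_add (g h : LipSpace) (x : Circ) : (g + h).fn x = g.fn x + h.fn x := rfl

lemma LipSpace.fn_neg (g : LipSpace) (x : Circ) : (-g).fn x = -g.fn x := rfl

lemma LipSpace.fn_zero (x : Circ) : (0 : LipSpace).fn x = 0 := rfl

lemma LipSpace.bdd1 (g : LipSpace) : BddAbove (range fun x => |g.fn x|) := by
  obtain ⟨K, hK⟩ := g.lip
  exact (isCompact_range hK.continuous.abs).bddAbove

lemma LipSpace.bdd2 (g : LipSpace) :
    BddAbove (range fun p : Circ × Circ => |g.fn p.1 - g.fn p.2| / dist p.1 p.2) := by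
  obtain ⟨K, hK⟩ := g.lip
  refine ⟨K, ?_⟩
  rintro _ ⟨p, rfl⟩
  simp only
  have h := hK.dist_le_mul p.1 p.2
  rw [Real.dist_eq] at h
  rcases (dist_nonneg (x := p.1) (y := p.2)).lt_or_eq with h0 | h0
  · rw [div_le_iff₀ h0]; exact h
  · rw [← h0, div_zero]; exact K.2

/-- the Lipschitz norm `sup |g| + sup_{x ≠ y} |g(x) - g(y)|/|x - y|` (the quotient is read as `0`
for `x = y`). -/
noncomputable def lipNorm : AddGroupNorm LipSpace where
  toFun g := (⨆ x : Circ, |g.fn x|) + ⨆ p : Circ × Circ, |g.fn p.1 - g.fn p.2| / dist p.1 p.2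
  map_zero' := by
    simp [LipSpace.fn_zero]
  add_le' g h := by
    have h1 : (⨆ x : Circ, |(g + h).fn x|) ≤ (⨆ x : Circ, |g.fn x|) + ⨆ x : Circ, |h.fn x| := by
      refine ciSup_le fun x => ?_
      rw [LipSpace.fn_add]
      exact (abs_add_le _ _).trans (add_le_add (le_ciSup g.bdd1 x) (le_ciSup h.bdd1 x))
    have h2 : (⨆ p : Circ × Circ, |(g + h).fn p.1 - (g + h).fn p.2| / dist p.1 p.2) ≤
        (⨆ p : Circ × Circ, |g.fn p.1 - g.fn p.2| / dist p.1 p.2) +
          ⨆ p : Circ × Circ, |h.fn p.1 - h.fn p.2| / dist p.1 p.2 := by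
      refine ciSup_le fun p => ?_
      rw [LipSpace.fn_add, LipSpace.fn_add]
      refine le_trans ?_ (add_le_add (le_ciSup g.bdd2 p) (le_ciSup h.bdd2 p))
      rw [← add_div]
      refine div_le_div_of_nonneg_right ?_ dist_nonneg
      refine le_trans (le_of_eq ?_) (abs_add_le _ _)
      congr 1
      ring
    linarith
  neg' g := by
    have h1 : ∀ x, |(-g).fn x| = |g.fn x| := fun x => by rw [LipSpace.fn_neg, abs_neg]
    have h2 : ∀ p : Circ × Circ, |(-g).fn p.1 - (-g).fn p.2| = |g.fn p.1 - g.fn p.2| := by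
      intro p
      rw [LipSpace.fn_neg, LipSpace.fn_neg, ← abs_neg]
      congr 1
      ring
    simp only [h1, h2]
  eq_zero_of_map_eq_zero' g hg := by
    have h2 : 0 ≤ ⨆ p : Circ × Circ, |g.fn p.1 - g.fn p.2| / dist p.1 p.2 :=
      Real.iSup_nonneg fun p => div_nonneg (abs_nonneg _) dist_nonneg
    have h1 : ∀ x, |g.fn x| ≤ 0 := fun x => by
      have := le_ciSup g.bdd1 x
      linarith
    apply Subtype.ext
    funext x
    exact abs_nonpos_iff.mp (h1 x)

noncomputable instance : NormedAddCommGroup LipSpace := lipNorm.toNormedAddCommGroup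

/-- The norm of `LipSpace` is the one of the problem. -/
lemma LipSpace.norm_def (g : LipSpace) : ‖g‖ =
    (⨆ x : Circ, |g.fn x|) + ⨆ p : Circ × Circ, |g.fn p.1 - g.fn p.2| / dist p.1 p.2 := rfl

noncomputable instance : MeasurableSpace LipSpace := borel LipSpace

/-- Shy sets (for the Borel sigma-algebra). -/
def Shy {X : Type*} [AddCommGroup X] [TopologicalSpace X] [MeasurableSpace X] (A : Set X) : Prop :=
  ∃ (μ : Measure X) (B : Set X), MeasurableSet B ∧ A ⊆ B ∧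
    (∃ K : Set X, IsCompact K ∧ 0 < μ K ∧ μ K < ⊤) ∧ ∀ x : X, μ ((fun y => x + y) '' B) = 0

/-- Prevalent sets. -/
def Prevalent {X : Type*} [AddCommGroup X] [TopologicalSpace X] [MeasurableSpace X] (A : Set X) :
    Prop := Shy Aᶜ


/-- `W_g(x) = ∑ b^{-αk} g(b^k x)`, as a function on the circle. -/
noncomputable def W (b : ℕ) (α : ℝ) (g : Circ → ℝ) (x : Circ) : ℝ :=
  ∑' k : ℕ, (b : ℝ) ^ (-(α * k)) * g ((b ^ k) • x)

/-- The property of Q1: all interior level sets have Hausdorff dimension `1 - α`. -/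
def Good (b : ℕ) (α : ℝ) (g : LipSpace) : Prop :=
  ∀ y ∈ interior (range (W b α g.fn)), dimH (W b α g.fn ⁻¹' {y}) = ENNReal.ofReal (1 - α)

section series

variable {b : ℕ} {α : ℝ} {f : Circ → ℝ} {B : ℝ}

lemma r_pow (hb : 2 ≤ b) (k : ℕ) : (b : ℝ) ^ (-(α * k)) = ((b : ℝ) ^ (-α)) ^ k := by
  have hb0 : (0 : ℝ) < b := by exact_mod_cast (by omega : 0 < b)
  rw [← Real.rpow_natCast, ← Real.rpow_mul hb0.le]
  ring_nf

lemma r_pos (hb : 2 ≤ b) : 0 < (b : ℝ) ^ (-α) :=
  Real.rpow_pos_of_pos (by exact_mod_cast (by omega : 0 < b)) _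

lemma r_lt (hb : 2 ≤ b) (h0 : 0 < α) : (b : ℝ) ^ (-α) < 1 :=
  Real.rpow_lt_one_of_one_lt_of_neg (by exact_mod_cast (by omega : 1 < b)) (by linarith)

lemma W_eq (hb : 2 ≤ b) (x : Circ) :
    W b α f x = ∑' k : ℕ, ((b : ℝ) ^ (-α)) ^ k * f ((b ^ k) • x) := by
  unfold W
  simp_rw [r_pow hb]

lemma W_summable (hb : 2 ≤ b) (h0 : 0 < α) (hB : ∀ x, |f x| ≤ B) (x : Circ) :
    Summable fun k : ℕ => ((b : ℝ) ^ (-α)) ^ k * f ((b ^ k) • x) := by
  refine Summable.of_norm_bounded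
    ((summable_geometric_of_lt_one (r_pos hb).le (r_lt hb h0)).mul_right B) fun k => ?_
  rw [norm_mul, Real.norm_eq_abs, Real.norm_eq_abs, abs_of_pos (pow_pos (r_pos hb) k)]
  exact mul_le_mul_of_nonneg_left (hB _) (pow_pos (r_pos hb) k).le

lemma W_func (hb : 2 ≤ b) (h0 : 0 < α) (hB : ∀ x, |f x| ≤ B) (x : Circ) :
    W b α f x = f x + (b : ℝ) ^ (-α) * W b α f (b • x) := by
  rw [W_eq hb, W_eq hb, (W_summable hb h0 hB x).tsum_eq_zero_add]
  congr 1
  · simp
  · rw [← tsum_mul_left]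
    refine tsum_congr fun k => ?_
    rw [pow_succ, pow_succ, mul_smul]
    ring

lemma W_osc (hb : 2 ≤ b) (h0 : 0 < α) (hB : ∀ x, |f x| ≤ B) {M : ℝ}
    (hM : ∀ x y, |f x - f y| ≤ M) (x y : Circ) :
    |W b α f x - W b α f y| ≤ M * (1 - (b : ℝ) ^ (-α))⁻¹ := by
  have hg := (hasSum_geometric_of_lt_one (r_pos (α := α) hb).le (r_lt hb h0)).mul_left M
  rw [W_eq hb, W_eq hb, ← Summable.tsum_sub (W_summable hb h0 hB x) (W_summable hb h0 hB y),
    ← Real.norm_eq_abs]
  refine tsum_of_norm_bounded hg fun k => ?_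
  rw [← mul_sub, norm_mul, Real.norm_eq_abs, Real.norm_eq_abs,
    abs_of_pos (pow_pos (r_pos hb) k), mul_comm]
  exact mul_le_mul_of_nonneg_right (hM _ _) (pow_pos (r_pos hb) k).le

lemma W_cont (hb : 2 ≤ b) (h0 : 0 < α) (hB : ∀ x, |f x| ≤ B) (hf : Continuous f) :
    Continuous (W b α f) := by
  have : W b α f = fun x => ∑' k : ℕ, ((b : ℝ) ^ (-α)) ^ k * f ((b ^ k) • x) := by
    funext x; exact W_eq hb x
  rw [this]
  refine continuous_tsum (u := fun k : ℕ => ((b : ℝ) ^ (-α)) ^ k * B) ?_ ?_ ?_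
  · intro k
    exact continuous_const.mul (hf.comp (continuous_const_smul _))
  · exact (summable_geometric_of_lt_one (r_pos hb).le (r_lt hb h0)).mul_right B
  · intro k x
    rw [norm_mul, Real.norm_eq_abs, Real.norm_eq_abs, abs_of_pos (pow_pos (r_pos hb) k)]
    exact mul_le_mul_of_nonneg_left (hB _) (pow_pos (r_pos hb) k).le

lemma smul_coe (x : ℝ) : b • (x : Circ) = ((b * x : ℝ) : Circ) := by
  rw [← AddCircle.coe_nsmul, nsmul_eq_mul]

lemma nat_coe (n : ℕ) : ((n : ℝ) : Circ) = 0 := by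
  rw [AddCircle.coe_eq_zero_iff]
  exact ⟨(n : ℤ), by simp⟩

end series

lemma norm_coe_of {x : ℝ} (hx : |x| ≤ 1 / 2) : ‖(x : Circ)‖ = |x| := by
  rw [AddCircle.norm_coe_eq_abs_iff (1 : ℝ) one_ne_zero]
  simpa using hx

lemma norm_le_half (x : Circ) : ‖x‖ ≤ 1 / 2 := by
  have := AddCircle.norm_le_half_period (1 : ℝ) (x := x) one_ne_zero
  simpa using this

/-- The standing assumptions on the parameters: `r = b^{-α}`, `K = r b`, `η` small. -/
structure Par (b : ℕ) (r η : ℝ) : Prop where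
  hb : 28 ≤ b
  r0 : 0 < r
  K1 : 1 < r * b
  K2 : r * b ≤ 4 / 3
  r7 : 1 ≤ r * (b - 7)
  e0 : 0 ≤ η
  e1 : η * (2 * (b : ℝ) ^ 2) ≤ 1

/-- the assumptions on the perturbed tent function `f`. -/
structure Fun (f : Circ → ℝ) (η : ℝ) : Prop where
  inc : ∀ x y : ℝ, 0 ≤ x → x ≤ y → y ≤ 1 / 2 → |f (y : Circ) - f (x : Circ) - (y - x)| ≤ η * (y - x)
  lip : ∀ x y : Circ, |f x - f y| ≤ (1 + η) * dist x y

section mono

variable {b : ℕ} {α η : ℝ} {f : Circ → ℝ} {B : ℝ}

lemma Par.r21 {r : ℝ} (h : Par b r η) : r ≤ 1 / 21 := by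
  have := h.K2
  have := h.r7
  nlinarith

lemma Par.eta {r : ℝ} (h : Par b r η) : η ≤ 1 / 1000 := by
  have h1 : (28 : ℝ) ≤ b := by exact_mod_cast h.hb
  have h2 := h.e1
  have h3 := h.e0
  have : η * (2 * 28 ^ 2) ≤ η * (2 * (b : ℝ) ^ 2) := by
    apply mul_le_mul_of_nonneg_left _ h3
    nlinarith
  linarith

/-- the one-step recursion for the signed increments. -/
lemma inc_step (hb : 2 ≤ b) (h0 : 0 < α) (hB : ∀ x, |f x| ≤ B) {u u' : ℝ}
    (huz : ((b * u : ℝ) : Circ) = (u' : Circ)) (h : ℝ) :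
    W b α f ((u + h : ℝ) : Circ) - W b α f (u : Circ) =
      (f ((u + h : ℝ) : Circ) - f (u : Circ)) +
        (b : ℝ) ^ (-α) * (W b α f ((u' + b * h : ℝ) : Circ) - W b α f (u' : Circ)) := by
  rw [W_func hb h0 hB ((u + h : ℝ) : Circ), W_func hb h0 hB (u : Circ), smul_coe, smul_coe, huz]
  have e : ((b * (u + h) : ℝ) : Circ) = ((u' + b * h : ℝ) : Circ) := by
    rw [mul_add, AddCircle.coe_add, huz, AddCircle.coe_add]
  rw [e]
  ring

/-- monotone crossing: at a point whose orbit stays in the increasing part, the function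
`s x + W_f(x)` is increasing through the point. -/
lemma crossing (hP : Par b ((b : ℝ) ^ (-α)) η) (h0 : 0 < α) (hB : ∀ x, |f x| ≤ B) (hf : Fun f η)
    {u : ℕ → ℝ} (hu0 : ∀ k, 1 / (2 * b) ≤ u k) (hu1 : ∀ k, u k ≤ 1 / 2 - 1 / (2 * b))
    (huz : ∀ k, ((b * u k : ℝ) : Circ) = (u (k + 1) : Circ)) {e : ℝ} (he : e = 1 ∨ e = -1) :
    ∀ n k : ℕ, ∀ s h : ℝ, (1 - η) ≤ s * ((b : ℝ) ^ (-α) * b - 1) → 0 < h → 0 ≤ u k + e * h →
      u k + e * h ≤ 1 / 2 → 1 / (2 * (b : ℝ) ^ 2) < (b : ℝ) ^ n * h →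
      0 < s * h + e * (W b α f ((u k + e * h : ℝ) : Circ) - W b α f (u k : Circ)) := by
  have hb : 2 ≤ b := le_trans (by norm_num) hP.hb
  have hb28 : (28 : ℝ) ≤ b := by exact_mod_cast hP.hb
  have hb0 : (0 : ℝ) < b := by linarith
  have hr0 := hP.r0
  have hr21 := hP.r21
  have hK1 := hP.K1
  have hK2 := hP.K2
  have hη0 := hP.e0
  have hη := hP.eta
  have he2 : e * e = 1 := by rcases he with rfl | rfl <;> norm_num
  have heabs : |e| = 1 := by rcases he with rfl | rfl <;> norm_num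
  set r := (b : ℝ) ^ (-α) with hr
  -- increment of `f`
  have hfi : ∀ k : ℕ, ∀ h : ℝ, 0 < h → 0 ≤ u k + e * h → u k + e * h ≤ 1 / 2 →
      (1 - η) * h ≤ e * (f ((u k + e * h : ℝ) : Circ) - f (u k : Circ)) := by
    intro k h hh h1 h2
    have hk0 : 0 ≤ u k := le_trans (by positivity) (hu0 k)
    have hk1 : u k ≤ 1 / 2 := by
      have : 0 ≤ 1 / (2 * (b : ℝ)) := by positivity
      linarith [hu1 k]
    rcases he with rfl | rfl
    · have := (abs_le.mp (hf.inc (u k) (u k + 1 * h) hk0 (by linarith) h2)).1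
      linarith
    · have := (abs_le.mp (hf.inc (u k + -1 * h) (u k) h1 (by linarith) hk1)).1
      linarith
  -- lower bound of the remainder
  have hosc : ∀ x y : Circ, |W b α f x - W b α f y| ≤ (1 + η) * (1 / 2) * (1 - r)⁻¹ := by
    refine W_osc hb h0 hB fun x y => (hf.lip x y).trans ?_
    refine mul_le_mul_of_nonneg_left ?_ (by linarith)
    rw [dist_eq_norm]
    exact norm_le_half _
  have hrem : ∀ x : ℝ, ∀ h : ℝ, 0 < h →
      -((1 + η) * h + r * ((1 + η) * (1 / 2) * (1 - r)⁻¹)) ≤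
        e * (W b α f ((x + e * h : ℝ) : Circ) - W b α f (x : Circ)) := by
    intro x h hh
    have h1 := inc_step (f := f) hb h0 hB (u := x) (u' := b * x) rfl (e * h)
    rw [h1]
    have h2 := hf.lip ((x + e * h : ℝ) : Circ) (x : Circ)
    have h3 : dist ((x + e * h : ℝ) : Circ) (x : Circ) ≤ h := by
      rw [dist_eq_norm, ← AddCircle.coe_sub]
      have : x + e * h - x = e * h := by ring
      rw [this]
      refine (QuotientAddGroup.norm_mk_le_norm).trans ?_
      rw [Real.norm_eq_abs, abs_mul, heabs, one_mul, abs_of_pos hh]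
    have h4 := hosc ((b * x + b * (e * h) : ℝ) : Circ) ((b * x : ℝ) : Circ)
    have h5 : |e * ((f ((x + e * h : ℝ) : Circ) - f (x : Circ)) + r *
        (W b α f ((b * x + b * (e * h) : ℝ) : Circ) - W b α f ((b * x : ℝ) : Circ)))| ≤
        (1 + η) * h + r * ((1 + η) * (1 / 2) * (1 - r)⁻¹) := by
      rw [abs_mul, heabs, one_mul]
      refine (abs_add_le _ _).trans (add_le_add ?_ ?_)
      · exact h2.trans (mul_le_mul_of_nonneg_left h3 (by linarith))
      · rw [abs_mul, abs_of_pos hr0]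
        exact mul_le_mul_of_nonneg_left h4 hr0.le
    exact (abs_le.mp h5).1
  -- the step
  have hstep : ∀ k : ℕ, ∀ h : ℝ, e * (W b α f ((u k + e * h : ℝ) : Circ) - W b α f (u k : Circ)) =
      e * (f ((u k + e * h : ℝ) : Circ) - f (u k : Circ)) + r *
        (e * (W b α f ((u (k + 1) + e * (b * h) : ℝ) : Circ) - W b α f (u (k + 1) : Circ))) := by
    intro k h
    have h1 := inc_step (f := f) hb h0 hB (huz k) (e * h)
    rw [h1]
    have : (b : ℝ) * (e * h) = e * (b * h) := by ring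
    rw [this]
    ring
  -- the base case
  have hbase : ∀ k : ℕ, ∀ s h : ℝ, (1 - η) ≤ s * (r * b - 1) → 0 < h → 0 ≤ u k + e * h →
      u k + e * h ≤ 1 / 2 → 1 / (2 * (b : ℝ) ^ 2) < h →
      0 < s * h + e * (W b α f ((u k + e * h : ℝ) : Circ) - W b α f (u k : Circ)) := by
    intro k s h hs hh h1 h2 h3
    rw [hstep]
    have h4 := hfi k h hh h1 h2
    have h5 := hrem (u (k + 1)) (b * h) (by positivity)
    have h6 := mul_le_mul_of_nonneg_left h5 hr0.le
    have hs3 : 3 * (1 - η) ≤ s := by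
      by_contra hcon
      push Not at hcon
      have : s * (r * b - 1) < (1 - η) := by
        rcases le_or_gt s 0 with hs0 | hs0
        · have : s * (r * b - 1) ≤ 0 := mul_nonpos_of_nonpos_of_nonneg hs0 (by linarith)
          linarith
        · have : s * (r * b - 1) ≤ s * (1 / 3) := mul_le_mul_of_nonneg_left (by linarith) hs0.le
          linarith
      linarith
    have hinv : (1 - r)⁻¹ ≤ 21 / 20 := by
      rw [inv_le_comm₀ (by linarith) (by norm_num)]
      linarith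
    have hinv0 : 0 < (1 - r)⁻¹ := inv_pos.mpr (by linarith)
    -- `r² ≤ (16/9)/b²`
    have hr2 : r ^ 2 * (b : ℝ) ^ 2 ≤ 16 / 9 := by
      have : (r * b) ^ 2 ≤ (4 / 3) ^ 2 := pow_le_pow_left₀ (by positivity) hK2 2
      rw [mul_pow] at this
      linarith
    have h7 : r ^ 2 * ((1 + η) * (1 / 2) * (1 - r)⁻¹) ≤ (16 / 9) * (1 + η) * (21 / 20) *
        (1 / (2 * (b : ℝ) ^ 2)) := by
      have e1 : r ^ 2 ≤ (16 / 9) / (b : ℝ) ^ 2 := by
        rw [le_div_iff₀ (by positivity)]; exact hr2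
      calc r ^ 2 * ((1 + η) * (1 / 2) * (1 - r)⁻¹)
          ≤ ((16 / 9) / (b : ℝ) ^ 2) * ((1 + η) * (1 / 2) * (21 / 20)) := by
            apply mul_le_mul e1 _ (by positivity) (by positivity)
            exact mul_le_mul_of_nonneg_left hinv (by positivity)
        _ = (16 / 9) * (1 + η) * (21 / 20) * (1 / (2 * (b : ℝ) ^ 2)) := by
            field_simp
    have h8 : (16 / 9) * (1 + η) * (21 / 20) * (1 / (2 * (b : ℝ) ^ 2)) ≤
        (16 / 9) * (1 + η) * (21 / 20) * h :=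
      mul_le_mul_of_nonneg_left h3.le (by positivity)
    have h9 : r * ((1 + η) * (b * h)) ≤ (4 / 3) * (1 + η) * h := by
      have : r * ((1 + η) * (b * h)) = (r * b) * ((1 + η) * h) := by ring
      rw [this]
      have := mul_le_mul_of_nonneg_right hK2 (by positivity : 0 ≤ (1 + η) * h)
      linarith
    have h10 : 3 * (1 - η) * h ≤ s * h := mul_le_mul_of_nonneg_right hs3 hh.le
    have h11 : η * h ≤ 1 / 1000 * h := mul_le_mul_of_nonneg_right hη hh.le
    nlinarith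
  intro n
  induction n with
  | zero =>
    intro k s h hs hh h1 h2 h3
    rw [pow_zero, one_mul] at h3
    exact hbase k s h hs hh h1 h2 h3
  | succ n ih =>
    intro k s h hs hh h1 h2 h3
    rcases lt_or_ge (1 / (2 * (b : ℝ) ^ 2)) h with h4 | h4
    · exact hbase k s h hs hh h1 h2 h4
    · rw [hstep]
      have h5 := hfi k h hh h1 h2
      have hbh : b * h ≤ 1 / (2 * b) := by
        calc b * h ≤ b * (1 / (2 * (b : ℝ) ^ 2)) := mul_le_mul_of_nonneg_left h4 hb0.le
          _ = 1 / (2 * b) := by field_simp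
      have hbh0 : 0 < b * h := by positivity
      have hk0 := hu0 (k + 1)
      have hk1 := hu1 (k + 1)
      have hbin : 1 / (2 * (b : ℝ)) ≤ 1 / 4 := by
        rw [div_le_div_iff₀ (by positivity) (by norm_num)]; linarith
      have h6 := ih (k + 1) ((s + (1 - η)) / (r * b)) (b * h) (by
          rw [div_mul_eq_mul_div, le_div_iff₀ (by linarith)]
          nlinarith) hbh0 (by
          rcases he with rfl | rfl <;> linarith) (by
          rcases he with rfl | rfl <;> linarith) (by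
          rw [pow_succ (b : ℝ) n] at h3; linarith)
      have h7 := mul_pos hr0 h6
      have h8 : r * ((s + (1 - η)) / (r * b) * (b * h)) = (s + (1 - η)) * h := by
        field_simp
      rw [mul_add, h8] at h7
      linarith

end mono

section digits

variable {b : ℕ} {α η : ℝ} {f : Circ → ℝ} {B : ℝ}

/-- partial digit sums. -/
noncomputable def X (b : ℕ) (d : ℕ → ℕ) (n : ℕ) : ℝ :=
  ∑ m ∈ Finset.range n, (d m : ℝ) / (b : ℝ) ^ (m + 1)

lemma X_succ (d : ℕ → ℕ) (n : ℕ) : X b d (n + 1) = X b d n + (d n : ℝ) / (b : ℝ) ^ (n + 1) := by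
  unfold X
  rw [Finset.sum_range_succ]

lemma X_shift (d : ℕ → ℕ) (n : ℕ) :
    X b d (n + 1) = ((d 0 : ℝ) + X b (fun m => d (m + 1)) n) / b := by
  unfold X
  rw [Finset.sum_range_succ', add_comm, add_div, Finset.sum_div]
  congr 1
  · simp
  · refine Finset.sum_congr rfl fun m _ => ?_
    rw [pow_succ (b : ℝ) (m + 1), div_div]

/-- increments of `W_f` at admissible points. -/
lemma incr (hP : Par b ((b : ℝ) ^ (-α)) η) (h0 : 0 < α) (hB : ∀ x, |f x| ≤ B) (hf : Fun f η)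
    {N : ℕ} (hN : 2 * N + 2 ≤ b) : ∀ n : ℕ, ∀ d : ℕ → ℕ, (∀ m < n, d m ≤ N) → ∀ i : ℕ, i ≤ N →
      0 ≤ X b d n ∧ X b d n + (i : ℝ) / (b : ℝ) ^ (n + 1) ≤ 1 / 2 ∧
      |W b α f ((X b d n + (i : ℝ) / (b : ℝ) ^ (n + 1) : ℝ) : Circ) - W b α f (X b d n : Circ) -
        i * ((((b : ℝ) ^ (-α)) ^ (n + 1) - 1 / (b : ℝ) ^ (n + 1)) / ((b : ℝ) ^ (-α) * b - 1))| ≤
      η * (i * ((((b : ℝ) ^ (-α)) ^ (n + 1) - 1 / (b : ℝ) ^ (n + 1)) /
        ((b : ℝ) ^ (-α) * b - 1))) := by
  have hb : 2 ≤ b := le_trans (by norm_num) hP.hb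
  have hb28 : (28 : ℝ) ≤ b := by exact_mod_cast hP.hb
  have hb0 : (0 : ℝ) < b := by linarith
  have hr0 := hP.r0
  have hK1 := hP.K1
  have hNb : (2 * N + 2 : ℝ) ≤ b := by exact_mod_cast hN
  set r := (b : ℝ) ^ (-α) with hr
  have hK : r * b - 1 ≠ 0 := by linarith
  intro n
  induction n with
  | zero =>
    intro d _ i hi
    have hiN : (i : ℝ) ≤ N := by exact_mod_cast hi
    have hX : X b d 0 = 0 := by simp [X]
    have h2 : (i : ℝ) / (b : ℝ) ^ (0 + 1) ≤ 1 / 2 := by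
      rw [zero_add, pow_one, div_le_iff₀ hb0]; linarith
    rw [hX]
    refine ⟨le_rfl, by linarith, ?_⟩
    have h3 := inc_step (f := f) hb h0 hB (u := 0) (u' := 0) (by rw [mul_zero])
      ((i : ℝ) / (b : ℝ) ^ (0 + 1))
    rw [h3]
    have h4 : (0 + b * ((i : ℝ) / (b : ℝ) ^ (0 + 1)) : ℝ) = (i : ℝ) := by
      field_simp; ring
    rw [h4, nat_coe, AddCircle.coe_zero, sub_self, mul_zero, add_zero]
    have h5 := hf.inc 0 (0 + (i : ℝ) / (b : ℝ) ^ (0 + 1)) le_rfl (by positivity) (by linarith)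
    have h6 : (i : ℝ) * ((r ^ (0 + 1) - 1 / (b : ℝ) ^ (0 + 1)) / (r * b - 1)) =
        (0 + (i : ℝ) / (b : ℝ) ^ (0 + 1) - 0) := by
      field_simp
      ring
    rw [h6]
    rw [AddCircle.coe_zero] at h5
    exact h5
  | succ n ih =>
    intro d hd i hi
    obtain ⟨i1, i2, i3⟩ := ih (fun m => d (m + 1)) (fun m hm => hd (m + 1) (by omega)) i hi
    have hd0 : (d 0 : ℝ) ≤ N := by exact_mod_cast hd 0 (by omega)
    set X' := X b (fun m => d (m + 1)) n with hX'
    have hXs := X_shift (b := b) d n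
    rw [← hX'] at hXs
    have hbX : (b : ℝ) * X b d (n + 1) = d 0 + X' := by rw [hXs]; field_simp
    have huz : ((b * X b d (n + 1) : ℝ) : Circ) = (X' : Circ) := by
      rw [hbX, AddCircle.coe_add, nat_coe, zero_add]
    have hX0 : 0 ≤ X b d (n + 1) := by rw [hXs]; positivity
    have hbh : (b : ℝ) * ((i : ℝ) / (b : ℝ) ^ (n + 1 + 1)) = (i : ℝ) / (b : ℝ) ^ (n + 1) := by
      field_simp
      ring
    have hX1 : X b d (n + 1) + (i : ℝ) / (b : ℝ) ^ (n + 1 + 1) ≤ 1 / 2 := by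
      have : (b : ℝ) * (X b d (n + 1) + (i : ℝ) / (b : ℝ) ^ (n + 1 + 1)) ≤ b * (1 / 2) := by
        rw [mul_add, hbX, hbh]; linarith
      exact le_of_mul_le_mul_left this hb0
    refine ⟨hX0, hX1, ?_⟩
    have h3 := inc_step (f := f) hb h0 hB huz ((i : ℝ) / (b : ℝ) ^ (n + 1 + 1))
    rw [h3, hbh]
    have h5 := hf.inc (X b d (n + 1)) (X b d (n + 1) + (i : ℝ) / (b : ℝ) ^ (n + 1 + 1)) hX0
      (by have : (0 : ℝ) ≤ (i : ℝ) / (b : ℝ) ^ (n + 1 + 1) := by positivity
          linarith) hX1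
    have e1 : X b d (n + 1) + (i : ℝ) / (b : ℝ) ^ (n + 1 + 1) - X b d (n + 1) =
        (i : ℝ) / (b : ℝ) ^ (n + 1 + 1) := by ring
    rw [e1] at h5
    have e2 : (i : ℝ) * ((r ^ (n + 1 + 1) - 1 / (b : ℝ) ^ (n + 1 + 1)) / (r * b - 1)) =
        (i : ℝ) / (b : ℝ) ^ (n + 1 + 1) +
          r * (i * ((r ^ (n + 1) - 1 / (b : ℝ) ^ (n + 1)) / (r * b - 1))) := by
      field_simp
      ring
    rw [e2]
    set P1 := f ((X b d (n + 1) + (i : ℝ) / (b : ℝ) ^ (n + 1 + 1) : ℝ) : Circ) -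
      f (X b d (n + 1) : Circ)
    set P2 := W b α f ((X' + (i : ℝ) / (b : ℝ) ^ (n + 1) : ℝ) : Circ) - W b α f (X' : Circ)
    set Q1 := (i : ℝ) / (b : ℝ) ^ (n + 1 + 1)
    set Q2 := (i : ℝ) * ((r ^ (n + 1) - 1 / (b : ℝ) ^ (n + 1)) / (r * b - 1))
    have e3 : P1 + r * P2 - (Q1 + r * Q2) = (P1 - Q1) + r * (P2 - Q2) := by ring
    rw [e3]
    refine (abs_add_le _ _).trans ?_
    rw [abs_mul, abs_of_pos hr0]
    have := mul_le_mul_of_nonneg_left i3 hr0.le
    linarith

/-- the selection of digits. -/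
lemma select {N : ℕ} {r A : ℝ} (hr0 : 0 < r) (hA : 0 < A) (hη0 : 0 ≤ η)
    (hpar : (1 / 2 + 2 * η * N) / r + 1 / 2 ≤ N - 1) (φ ψ : ℝ → ℝ) (h00 : φ 0 = ψ 0)
    (hφ : ∀ n : ℕ, ∀ d : ℕ → ℕ, (∀ m < n, d m ≤ N) → ∀ i : ℕ, i ≤ N →
      |φ (X b d n + (i : ℝ) / (b : ℝ) ^ (n + 1)) - φ (X b d n) - i * (A * r ^ (n + 1))| ≤
        η * (i * (A * r ^ (n + 1))))
    (hψ : ∀ n : ℕ, ∀ d : ℕ → ℕ, (∀ m < n, d m ≤ N) → ∀ i : ℕ, i ≤ N →
      |ψ (X b d n + (i : ℝ) / (b : ℝ) ^ (n + 1)) - ψ (X b d n) - i * (A * r ^ (n + 1))| ≤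
        η * (i * (A * r ^ (n + 1)))) :
    ∃ d d' : ℕ → ℕ, (∀ m, 1 ≤ d m ∧ d m ≤ N) ∧ (∀ m, 1 ≤ d' m ∧ d' m ≤ N) ∧
      ∀ n, |φ (X b d n) - ψ (X b d' n)| ≤ (1 / 2 + 2 * η * N) * (A * r ^ n) := by
  set ρ : ℕ → ℝ × ℝ → ℤ := fun n p => -round ((φ p.1 - ψ p.2) / (A * r ^ (n + 1))) with hρ
  set st : ℕ → ℝ × ℝ := fun n => Nat.rec (motive := fun _ => ℝ × ℝ) (0, 0)
    (fun n p => (p.1 + ((1 + (ρ n p).toNat : ℕ) : ℝ) / (b : ℝ) ^ (n + 1),
      p.2 + ((1 + (-ρ n p).toNat : ℕ) : ℝ) / (b : ℝ) ^ (n + 1))) n with hst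
  set d : ℕ → ℕ := fun n => 1 + (ρ n (st n)).toNat with hd
  set d' : ℕ → ℕ := fun n => 1 + (-ρ n (st n)).toNat with hd'
  have hst0 : st 0 = (0, 0) := rfl
  have hstn : ∀ n, st (n + 1) = ((st n).1 + (d n : ℝ) / (b : ℝ) ^ (n + 1),
      (st n).2 + (d' n : ℝ) / (b : ℝ) ^ (n + 1)) := fun n => rfl
  have hX1 : ∀ n, (st n).1 = X b d n := by
    intro n
    induction n with
    | zero => simp [hst0, X]
    | succ n ih => rw [hstn, X_succ, ← ih]
  have hX2 : ∀ n, (st n).2 = X b d' n := by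
    intro n
    induction n with
    | zero => simp [hst0, X]
    | succ n ih => rw [hstn, X_succ, ← ih]
  have hρn : ∀ n, ρ n (st n) = -round ((φ (X b d n) - ψ (X b d' n)) / (A * r ^ (n + 1))) := by
    intro n
    simp only [hρ]
    rw [hX1, hX2]
  have key : ∀ n, |φ (X b d n) - ψ (X b d' n)| ≤ (1 / 2 + 2 * η * N) * (A * r ^ n) ∧
      ∀ m < n, d m ≤ N ∧ d' m ≤ N := by
    intro n
    induction n with
    | zero =>
      refine ⟨?_, fun m hm => absurd hm (Nat.not_lt_zero m)⟩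
      have : X b d 0 = 0 ∧ X b d' 0 = 0 := by simp [X]
      rw [this.1, this.2, h00, sub_self, abs_zero]
      positivity
    | succ n ih =>
      obtain ⟨ih1, ih2⟩ := ih
      set D := φ (X b d n) - ψ (X b d' n) with hD
      have hAr : 0 < A * r ^ (n + 1) := by positivity
      have hq : |D / (A * r ^ (n + 1))| ≤ (1 / 2 + 2 * η * N) / r := by
        rw [abs_div, abs_of_pos hAr, div_le_div_iff₀ hAr hr0]
        calc |D| * r ≤ (1 / 2 + 2 * η * N) * (A * r ^ n) * r :=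
              mul_le_mul_of_nonneg_right ih1 hr0.le
          _ = (1 / 2 + 2 * η * N) * (A * r ^ (n + 1)) := by ring
      set q := D / (A * r ^ (n + 1)) with hqd
      have hround := abs_sub_round q
      have hρq : ρ n (st n) = -round q := hρn n
      have hρabs : |((ρ n (st n) : ℤ) : ℝ)| ≤ N - 1 := by
        rw [hρq]
        push_cast
        rw [abs_neg]
        have : (round q : ℝ) = q - (q - round q) := by ring
        rw [this]
        refine (abs_sub _ _).trans ?_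
        linarith
      have hρle : ρ n (st n) ≤ N - 1 := by
        have := (le_abs_self _).trans hρabs
        exact_mod_cast this
      have hρge : -(N - 1 : ℤ) ≤ ρ n (st n) := by
        have := neg_le_of_abs_le hρabs
        exact_mod_cast this
      have hdn : d n ≤ N := by
        simp only [hd]; omega
      have hdn' : d' n ≤ N := by
        simp only [hd']; omega
      have hdd : (d n : ℝ) - d' n = -(round q : ℝ) := by
        have : ((d n : ℕ) : ℤ) - ((d' n : ℕ) : ℤ) = -round q := by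
          rw [← hρq]
          simp only [hd, hd']
          omega
        exact_mod_cast this
      have hall : ∀ m < n + 1, d m ≤ N ∧ d' m ≤ N := by
        intro m hm
        rcases Nat.lt_succ_iff_lt_or_eq.mp hm with h | h
        · exact ih2 m h
        · rw [h]; exact ⟨hdn, hdn'⟩
      refine ⟨?_, hall⟩
      have h1 := hφ n d (fun m hm => (ih2 m hm).1) (d n) hdn
      have h2 := hψ n d' (fun m hm => (ih2 m hm).2) (d' n) hdn'
      rw [← X_succ] at h1 h2
      have hdN : (d n : ℝ) ≤ N := by exact_mod_cast hdn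
      have hdN' : (d' n : ℝ) ≤ N := by exact_mod_cast hdn'
      have h3 : η * ((d n : ℝ) * (A * r ^ (n + 1))) ≤ η * (N * (A * r ^ (n + 1))) := by gcongr
      have h4 : η * ((d' n : ℝ) * (A * r ^ (n + 1))) ≤ η * (N * (A * r ^ (n + 1))) := by gcongr
      have h5 : φ (X b d (n + 1)) - ψ (X b d' (n + 1)) =
          (φ (X b d (n + 1)) - φ (X b d n) - d n * (A * r ^ (n + 1))) -
          (ψ (X b d' (n + 1)) - ψ (X b d' n) - d' n * (A * r ^ (n + 1))) +
          (q - round q) * (A * r ^ (n + 1)) := by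
        have h6 : q * (A * r ^ (n + 1)) = D := by
          rw [hqd]; field_simp
        have h7 : D = φ (X b d n) - ψ (X b d' n) := hD
        have h8 : (q - round q) * (A * r ^ (n + 1)) = D + (d n - d' n) * (A * r ^ (n + 1)) := by
          rw [sub_mul, h6, hdd]; ring
        rw [h8, h7]
        ring
      rw [h5]
      have h6 : |(q - round q) * (A * r ^ (n + 1))| ≤ 1 / 2 * (A * r ^ (n + 1)) := by
        rw [abs_mul, abs_of_pos hAr]
        exact mul_le_mul_of_nonneg_right hround hAr.le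
      refine (abs_add_le _ _).trans ?_
      refine (add_le_add (abs_sub _ _) h6).trans ?_
      linarith
  exact ⟨d, d', fun m => ⟨by simp only [hd]; omega, ((key (m + 1)).2 m (by omega)).1⟩,
    fun m => ⟨by simp only [hd']; omega, ((key (m + 1)).2 m (by omega)).2⟩, fun n => (key n).1⟩

/-- the point with the given digits. -/
noncomputable def V (b : ℕ) (d : ℕ → ℕ) : ℝ := ∑' m : ℕ, (d m : ℝ) / (b : ℝ) ^ (m + 1)

lemma V_summable (hb : 2 ≤ b) {N : ℕ} {d : ℕ → ℕ} (hd : ∀ m, d m ≤ N) :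
    Summable fun m : ℕ => (d m : ℝ) / (b : ℝ) ^ (m + 1) := by
  have hb1 : (1 : ℝ) < b := by exact_mod_cast (by omega : 1 < b)
  have hb0 : (0 : ℝ) < b := by linarith
  have hinv : (b : ℝ)⁻¹ < 1 := inv_lt_one_of_one_lt₀ hb1
  refine Summable.of_nonneg_of_le (fun m => by positivity) (fun m => ?_)
    ((summable_geometric_of_lt_one (by positivity) hinv).mul_left (N : ℝ))
  have h1 : (d m : ℝ) ≤ N := by exact_mod_cast hd m
  rw [inv_pow, ← div_eq_mul_inv]
  have h2 : (b : ℝ) ^ m ≤ (b : ℝ) ^ (m + 1) := pow_le_pow_right₀ hb1.le (Nat.le_succ m)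
  gcongr

lemma V_shift (hb : 2 ≤ b) {N : ℕ} {d : ℕ → ℕ} (hd : ∀ m, d m ≤ N) :
    (b : ℝ) * V b d = d 0 + V b (fun m => d (m + 1)) := by
  have hb0 : (0 : ℝ) < b := by exact_mod_cast (by omega : 0 < b)
  unfold V
  rw [(V_summable hb hd).tsum_eq_zero_add, mul_add, ← tsum_mul_left]
  congr 1
  · field_simp
    ring
  · refine tsum_congr fun m => ?_
    rw [pow_succ (b : ℝ) (m + 1)]
    field_simp

lemma V_ge (hb : 2 ≤ b) {N : ℕ} {d : ℕ → ℕ} (hd : ∀ m, d m ≤ N) (hd1 : 1 ≤ d 0) :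
    1 / (2 * (b : ℝ)) ≤ V b d := by
  have hb0 : (0 : ℝ) < b := by exact_mod_cast (by omega : 0 < b)
  have h1 := (V_summable hb hd).le_tsum 0 (fun m _ => by positivity)
  have h2 : (1 : ℝ) ≤ d 0 := by exact_mod_cast hd1
  unfold V
  refine le_trans ?_ h1
  rw [zero_add, pow_one, div_le_div_iff₀ (by positivity) hb0]
  nlinarith

lemma V_le (hb : 2 ≤ b) {N : ℕ} (hN : 2 * N + 2 ≤ b) {d : ℕ → ℕ} (hd : ∀ m, d m ≤ N) :
    V b d ≤ 1 / 2 - 1 / (2 * (b : ℝ)) := by
  have hb1 : (1 : ℝ) < b := by exact_mod_cast (by omega : 1 < b)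
  have hb0 : (0 : ℝ) < b := by linarith
  have hinv : (b : ℝ)⁻¹ < 1 := inv_lt_one_of_one_lt₀ hb1
  have hNb : (2 * N + 2 : ℝ) ≤ b := by exact_mod_cast hN
  have h1 : V b d ≤ ∑' m : ℕ, (N : ℝ) * (b : ℝ)⁻¹ * ((b : ℝ)⁻¹) ^ m := by
    unfold V
    refine (V_summable hb hd).tsum_le_tsum (fun m => ?_)
      ((summable_geometric_of_lt_one (by positivity) hinv).mul_left _)
    have h1 : (d m : ℝ) ≤ N := by exact_mod_cast hd m
    have e : (N : ℝ) * (b : ℝ)⁻¹ * ((b : ℝ)⁻¹) ^ m = N / (b : ℝ) ^ (m + 1) := by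
      rw [inv_pow]
      field_simp
      ring
    rw [e]
    gcongr
  rw [tsum_mul_left, tsum_geometric_of_lt_one (by positivity) hinv] at h1
  refine h1.trans ?_
  have e : (N : ℝ) * (b : ℝ)⁻¹ * (1 - (b : ℝ)⁻¹)⁻¹ = N / (b - 1) := by
    have : (b : ℝ) - 1 ≠ 0 := by linarith
    field_simp
  have e2 : 1 / 2 - 1 / (2 * (b : ℝ)) = (b - 1) / (2 * b) := by field_simp
  rw [e, e2, div_le_div_iff₀ (by linarith) (by positivity)]
  nlinarith

lemma V_tendsto (hb : 2 ≤ b) {N : ℕ} {d : ℕ → ℕ} (hd : ∀ m, d m ≤ N) :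
    Filter.Tendsto (X b d) Filter.atTop (nhds (V b d)) :=
  (V_summable hb hd).hasSum.tendsto_sum_nat

end digits

section assemble

variable {b : ℕ} {α η : ℝ} {f : Circ → ℝ} {B : ℝ}

lemma fun_of (hη0 : 0 ≤ η) {q : Circ → ℝ} (hq : ∀ x y, |q x - q y| ≤ η * dist x y) :
    Fun (fun x => ‖x‖ + q x) η := by
  constructor
  · intro x y hx hxy hy
    have h1 : ‖(x : Circ)‖ = x := by
      rw [norm_coe_of (by rw [abs_of_nonneg hx]; linarith), abs_of_nonneg hx]
    have h2 : ‖(y : Circ)‖ = y := by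
      rw [norm_coe_of (by rw [abs_of_nonneg (by linarith)]; linarith),
        abs_of_nonneg (by linarith)]
    rw [h1, h2]
    have e : y + q (y : Circ) - (x + q (x : Circ)) - (y - x) = q (y : Circ) - q (x : Circ) := by
      ring
    rw [e]
    refine (hq _ _).trans (mul_le_mul_of_nonneg_left ?_ hη0)
    rw [dist_eq_norm, ← AddCircle.coe_sub]
    refine (QuotientAddGroup.norm_mk_le_norm).trans ?_
    rw [Real.norm_eq_abs, abs_of_nonneg (by linarith)]
  · intro x y
    have e : ‖x‖ + q x - (‖y‖ + q y) = (‖x‖ - ‖y‖) + (q x - q y) := by ring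
    rw [e]
    refine (abs_add_le _ _).trans ?_
    have h1 := abs_norm_sub_norm_le x y
    rw [← dist_eq_norm] at h1
    have h2 := hq x y
    linarith

/-- `Ω = A ‖x‖ + W_f`, `A = 1/(rb - 1)`. -/
noncomputable def Om (b : ℕ) (α : ℝ) (f : Circ → ℝ) (x : Circ) : ℝ :=
  1 / ((b : ℝ) ^ (-α) * b - 1) * ‖x‖ + W b α f x

/-- strict monotone crossing on `[0, 1/2]`. -/
lemma strict_cross (hP : Par b ((b : ℝ) ^ (-α)) η) (h0 : 0 < α) (hB : ∀ x, |f x| ≤ B)
    (hf : Fun f η) {N : ℕ} (hN : 2 * N + 2 ≤ b) {d : ℕ → ℕ} (hd : ∀ m, 1 ≤ d m ∧ d m ≤ N)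
    {x : ℝ} (hx0 : 0 ≤ x) (hx1 : x ≤ 1 / 2) (hne : x ≠ V b d) :
    0 < (x - V b d) * (Om b α f (x : Circ) - Om b α f (V b d : Circ)) := by
  have hb : 2 ≤ b := le_trans (by norm_num) hP.hb
  have hb28 : (28 : ℝ) ≤ b := by exact_mod_cast hP.hb
  have hb0 : (0 : ℝ) < b := by linarith
  have hb1 : (1 : ℝ) < b := by linarith
  have hK1 := hP.K1
  set u : ℕ → ℝ := fun k => V b (fun m => d (k + m)) with hu
  have hu00 : u 0 = V b d := by simp [hu]
  have hu0 : ∀ k, 1 / (2 * (b : ℝ)) ≤ u k := fun k =>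
    V_ge hb (N := N) (fun m => (hd (k + m)).2) (hd (k + 0)).1
  have hu1 : ∀ k, u k ≤ 1 / 2 - 1 / (2 * (b : ℝ)) := fun k =>
    V_le hb hN (fun m => (hd (k + m)).2)
  have huz : ∀ k, ((b * u k : ℝ) : Circ) = (u (k + 1) : Circ) := by
    intro k
    have h1 := V_shift hb (d := fun m => d (k + m)) (N := N) (fun m => (hd (k + m)).2)
    simp only [hu]
    rw [h1, AddCircle.coe_add, nat_coe, zero_add]
    have : (fun m => d (k + (m + 1))) = fun m => d (k + 1 + m) := by
      funext m; congr 1; ring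
    rw [this]
  have hs : (1 - η) ≤ 1 / ((b : ℝ) ^ (-α) * b - 1) * ((b : ℝ) ^ (-α) * b - 1) := by
    rw [one_div_mul_cancel (by linarith)]
    linarith [hP.e0]
  have hV0 : 0 ≤ V b d := by
    rw [← hu00]; exact le_trans (by positivity) (hu0 0)
  have hV1 : V b d ≤ 1 / 2 := by
    have : 0 ≤ 1 / (2 * (b : ℝ)) := by positivity
    rw [← hu00]; linarith [hu1 0]
  have hnx : ‖(x : Circ)‖ = x := by
    rw [norm_coe_of (by rw [abs_of_nonneg hx0]; linarith), abs_of_nonneg hx0]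
  have hnV : ‖(V b d : Circ)‖ = V b d := by
    rw [norm_coe_of (by rw [abs_of_nonneg hV0]; linarith), abs_of_nonneg hV0]
  unfold Om
  rw [hnx, hnV]
  rcases lt_or_gt_of_ne hne with hlt | hgt
  · obtain ⟨n, hn⟩ := pow_unbounded_of_one_lt (1 / (2 * (b : ℝ) ^ 2) / (V b d - x)) hb1
    rw [div_lt_iff₀ (by linarith)] at hn
    have h1 := crossing hP h0 hB hf hu0 hu1 huz (Or.inr rfl) n 0 _ (V b d - x) hs
      (by linarith) (by rw [hu00]; linarith) (by rw [hu00]; linarith) hn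
    rw [hu00] at h1
    have e : V b d + -1 * (V b d - x) = x := by ring
    rw [e] at h1
    nlinarith
  · obtain ⟨n, hn⟩ := pow_unbounded_of_one_lt (1 / (2 * (b : ℝ) ^ 2) / (x - V b d)) hb1
    rw [div_lt_iff₀ (by linarith)] at hn
    have h1 := crossing hP h0 hB hf hu0 hu1 huz (Or.inl rfl) n 0 _ (x - V b d) hs
      (by linarith) (by rw [hu00]; linarith) (by rw [hu00]; linarith) hn
    rw [hu00] at h1
    have e : V b d + 1 * (x - V b d) = x := by ring
    rw [e] at h1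
    nlinarith

/-- increments of `Ω` at admissible points. -/
lemma incr_Om (hP : Par b ((b : ℝ) ^ (-α)) η) (h0 : 0 < α) (hB : ∀ x, |f x| ≤ B) (hf : Fun f η)
    {N : ℕ} (hN : 2 * N + 2 ≤ b) (n : ℕ) (d : ℕ → ℕ) (hd : ∀ m < n, d m ≤ N) (i : ℕ)
    (hi : i ≤ N) :
      |Om b α f ((X b d n + (i : ℝ) / (b : ℝ) ^ (n + 1) : ℝ) : Circ) - Om b α f (X b d n : Circ) -
        i * (1 / ((b : ℝ) ^ (-α) * b - 1) * ((b : ℝ) ^ (-α)) ^ (n + 1))| ≤
      η * (i * (1 / ((b : ℝ) ^ (-α) * b - 1) * ((b : ℝ) ^ (-α)) ^ (n + 1))) := by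
  have hb28 : (28 : ℝ) ≤ b := by exact_mod_cast hP.hb
  have hb0 : (0 : ℝ) < b := by linarith
  have hr0 := hP.r0
  have hK1 := hP.K1
  have hη0 := hP.e0
  obtain ⟨h1, h2, h3⟩ := incr hP h0 hB hf hN n d hd i hi
  set r := (b : ℝ) ^ (-α) with hr
  have hpos : (0 : ℝ) ≤ (i : ℝ) / (b : ℝ) ^ (n + 1) := by positivity
  have hn1 : ‖((X b d n + (i : ℝ) / (b : ℝ) ^ (n + 1) : ℝ) : Circ)‖ =
      X b d n + (i : ℝ) / (b : ℝ) ^ (n + 1) := by
    rw [norm_coe_of (by rw [abs_of_nonneg (by linarith)]; linarith),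
      abs_of_nonneg (by linarith)]
  have hn2 : ‖(X b d n : Circ)‖ = X b d n := by
    rw [norm_coe_of (by rw [abs_of_nonneg h1]; linarith), abs_of_nonneg h1]
  have hKpos : 0 < r * b - 1 := by linarith
  have e1 : (i : ℝ) * (1 / (r * b - 1) * r ^ (n + 1)) = 1 / (r * b - 1) *
      ((i : ℝ) / (b : ℝ) ^ (n + 1)) +
        i * ((r ^ (n + 1) - 1 / (b : ℝ) ^ (n + 1)) / (r * b - 1)) := by
    field_simp
    ring
  unfold Om
  rw [← hr, hn1, hn2]
  have e2 : 1 / (r * b - 1) * (X b d n + (i : ℝ) / (b : ℝ) ^ (n + 1)) +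
      W b α f ((X b d n + (i : ℝ) / (b : ℝ) ^ (n + 1) : ℝ) : Circ) -
      (1 / (r * b - 1) * X b d n + W b α f (X b d n : Circ)) -
      i * (1 / (r * b - 1) * r ^ (n + 1)) =
      W b α f ((X b d n + (i : ℝ) / (b : ℝ) ^ (n + 1) : ℝ) : Circ) - W b α f (X b d n : Circ) -
        i * ((r ^ (n + 1) - 1 / (b : ℝ) ^ (n + 1)) / (r * b - 1)) := by
    rw [e1]; ring
  rw [e2]
  refine h3.trans (mul_le_mul_of_nonneg_left ?_ hη0)
  rw [e1]
  have : 0 ≤ 1 / (r * b - 1) * ((i : ℝ) / (b : ℝ) ^ (n + 1)) := by positivity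
  linarith

/-- The main construction: for a small perturbation `q` of the distance function there is a level
of `Ω` attained exactly twice. -/
lemma two_points (hP : Par b ((b : ℝ) ^ (-α)) η) (h0 : 0 < α) {q : Circ → ℝ}
    (hq : ∀ x y, |q x - q y| ≤ η * dist x y) (hqB : ∀ x, |q x| ≤ B) :
    ∃ v v' : ℝ, 0 < v ∧ v ≤ 1 / 2 ∧ 0 < v' ∧ v' ≤ 1 / 2 ∧
      Om b α (fun x => ‖x‖ + q x) 0 < Om b α (fun x => ‖x‖ + q x) (v : Circ) ∧
      Om b α (fun x => ‖x‖ + q x) (v : Circ) <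
        Om b α (fun x => ‖x‖ + q x) ((1 / 2 : ℝ) : Circ) ∧
      ∀ x : Circ, Om b α (fun x => ‖x‖ + q x) x = Om b α (fun x => ‖x‖ + q x) (v : Circ) ↔
        x = (v : Circ) ∨ x = ((-v' : ℝ) : Circ) := by
  have hb : 2 ≤ b := le_trans (by norm_num) hP.hb
  have hb28' := hP.hb
  have hb28 : (28 : ℝ) ≤ b := by exact_mod_cast hP.hb
  have hb0 : (0 : ℝ) < b := by linarith
  have hr0 := hP.r0
  have hK1 := hP.K1
  have hη0 := hP.e0
  have hf := fun_of hη0 hq
  have hq' : ∀ x y, |(fun x => q (-x)) x - (fun x => q (-x)) y| ≤ η * dist x y := by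
    intro x y
    have := hq (-x) (-y)
    rwa [dist_neg_neg] at this
  have hf' := fun_of hη0 hq'
  have hB1 : ∀ x : Circ, |(fun x => ‖x‖ + q x) x| ≤ 1 / 2 + B := by
    intro x
    refine (abs_add_le _ _).trans (add_le_add ?_ (hqB x))
    rw [abs_norm]; exact norm_le_half x
  have hB2 : ∀ x : Circ, |(fun x => ‖x‖ + (fun x => q (-x)) x) x| ≤ 1 / 2 + B := by
    intro x
    refine (abs_add_le _ _).trans (add_le_add ?_ (hqB (-x)))
    rw [abs_norm]; exact norm_le_half x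
  have hrefl : ∀ x : Circ, Om b α (fun x => ‖x‖ + (fun x => q (-x)) x) x =
      Om b α (fun x => ‖x‖ + q x) (-x) := by
    intro x
    unfold Om
    rw [norm_neg]
    congr 1
    rw [W_eq hb, W_eq hb]
    refine tsum_congr fun k => ?_
    simp only [smul_neg, norm_neg]
  set N : ℕ := (b - 2) / 2 with hNdef
  have hN : 2 * N + 2 ≤ b := by omega
  have hN3 : b ≤ 2 * N + 3 := by omega
  have hNb : (2 * N + 2 : ℝ) ≤ b := by exact_mod_cast hN
  have hNb3 : (b : ℝ) ≤ 2 * N + 3 := by exact_mod_cast hN3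
  set r := (b : ℝ) ^ (-α) with hr
  have hKpos : 0 < r * b - 1 := by linarith
  set A := 1 / (r * b - 1) with hA
  have hApos : 0 < A := by positivity
  have hpar : (1 / 2 + 2 * η * N) / r + 1 / 2 ≤ N - 1 := by
    have h7 := hP.r7
    have h1 : (1 / 2 + 2 * η * N) / r ≤ (1 / 2 + 2 * η * N) * (b - 7) := by
      rw [div_le_iff₀ hr0]
      have : 0 ≤ 1 / 2 + 2 * η * N := by positivity
      nlinarith
    have h2 : 2 * η * N * (b - 7) ≤ 1 / 2 := by
      have h3 := hP.e1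
      have hNN : (0 : ℝ) ≤ N := by positivity
      have h4 : 2 * (N : ℝ) * (b - 7) ≤ (b : ℝ) ^ 2 := by nlinarith
      have h5 : η * (2 * (N : ℝ) * (b - 7)) ≤ η * (b : ℝ) ^ 2 := mul_le_mul_of_nonneg_left h4 hη0
      linarith
    linarith
  obtain ⟨d, d', hd, hd', hlim⟩ := select (b := b) (η := η) (N := N) hr0 hApos hη0 hpar
    (fun x : ℝ => Om b α (fun x => ‖x‖ + q x) (x : Circ))
    (fun x : ℝ => Om b α (fun x => ‖x‖ + (fun x => q (-x)) x) (x : Circ))
    (by simp only; rw [hrefl, AddCircle.coe_zero, neg_zero])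
    (fun n d hd i hi => incr_Om hP h0 hB1 hf hN n d hd i hi)
    (fun n d hd i hi => incr_Om hP h0 hB2 hf' hN n d hd i hi)
  -- the two values agree
  have hqc : Continuous q := by
    have : LipschitzWith (Real.toNNReal η) q := by
      refine LipschitzWith.of_dist_le_mul fun x y => ?_
      rw [Real.dist_eq, Real.coe_toNNReal _ hη0]
      exact hq x y
    exact this.continuous
  have hc1 : Continuous fun x : ℝ => Om b α (fun x => ‖x‖ + q x) (x : Circ) := by
    have h1 : Continuous (W b α fun x => ‖x‖ + q x) :=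
      W_cont hb h0 hB1 (continuous_norm.add hqc)
    have h2 : Continuous (fun x : ℝ => (x : Circ)) := AddCircle.continuous_mk' (1 : ℝ)
    unfold Om
    exact (continuous_const.mul (continuous_norm.comp h2)).add (h1.comp h2)
  have hc2 : Continuous fun x : ℝ => Om b α (fun x => ‖x‖ + (fun x => q (-x)) x) (x : Circ) := by
    have h1 : Continuous (W b α fun x => ‖x‖ + (fun x => q (-x)) x) :=
      W_cont hb h0 hB2 (continuous_norm.add (hqc.comp continuous_neg))
    have h2 : Continuous (fun x : ℝ => (x : Circ)) := AddCircle.continuous_mk' (1 : ℝ)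
    unfold Om
    exact (continuous_const.mul (continuous_norm.comp h2)).add (h1.comp h2)
  have heq : Om b α (fun x => ‖x‖ + q x) (V b d : Circ) =
      Om b α (fun x => ‖x‖ + (fun x => q (-x)) x) (V b d' : Circ) := by
    have t1 := (hc1.tendsto (V b d)).comp (V_tendsto hb (fun m => (hd m).2))
    have t2 := (hc2.tendsto (V b d')).comp (V_tendsto hb (fun m => (hd' m).2))
    have t3 := (t1.sub t2).abs
    have hr1 : r < 1 := r_lt hb h0
    have t4 : Filter.Tendsto (fun n : ℕ => (1 / 2 + 2 * η * N) * (A * r ^ n)) Filter.atTop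
        (nhds ((1 / 2 + 2 * η * N) * (A * 0))) :=
      ((tendsto_pow_atTop_nhds_zero_of_lt_one hr0.le hr1).const_mul A).const_mul _
    rw [mul_zero, mul_zero] at t4
    have t5 := le_of_tendsto_of_tendsto' t3 t4 hlim
    have t6 := abs_nonpos_iff.mp t5
    simp only at t6
    linarith
  have hbin : 0 < 1 / (2 * (b : ℝ)) := by positivity
  have hv0 := V_ge hb (N := N) (fun m => (hd m).2) (hd 0).1
  have hv1 := V_le hb hN (fun m => (hd m).2)
  have hv0' := V_ge hb (N := N) (fun m => (hd' m).2) (hd' 0).1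
  have hv1' := V_le hb hN (fun m => (hd' m).2)
  have c1 : ∀ x : ℝ, 0 ≤ x → x ≤ 1 / 2 → x ≠ V b d → _ := fun x h1 h2 h3 =>
    strict_cross hP h0 hB1 hf hN hd h1 h2 h3
  have c2 : ∀ x : ℝ, 0 ≤ x → x ≤ 1 / 2 → x ≠ V b d' → _ := fun x h1 h2 h3 =>
    strict_cross hP h0 hB2 hf' hN hd' h1 h2 h3
  refine ⟨V b d, V b d', by linarith, by linarith, by linarith, by linarith, ?_, ?_, ?_⟩
  · have := c1 0 le_rfl (by norm_num) (by linarith)
    rw [AddCircle.coe_zero] at this
    by_contra hcon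
    push Not at hcon
    have h2 := mul_nonneg (by linarith : 0 ≤ -(0 - V b d)) (sub_nonneg.mpr hcon)
    linarith
  · have := c1 (1 / 2) (by norm_num) le_rfl (by linarith)
    by_contra hcon
    push Not at hcon
    have h2 := mul_nonneg (by linarith : 0 ≤ (1 / 2 - V b d)) (sub_nonneg.mpr hcon)
    linarith
  · intro x
    constructor
    · intro hx
      obtain ⟨x0, rfl⟩ := QuotientAddGroup.mk_surjective x
      have hfr : ((x0 : ℝ) : Circ) = ((Int.fract x0 : ℝ) : Circ) := by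
        have e : x0 = Int.fract x0 + ((⌊x0⌋ : ℤ) : ℝ) := (Int.fract_add_floor x0).symm
        conv_lhs => rw [e]
        rw [AddCircle.coe_add]
        have : ((((⌊x0⌋ : ℤ) : ℝ)) : Circ) = 0 := by
          rw [AddCircle.coe_eq_zero_iff]
          exact ⟨⌊x0⌋, by simp⟩
        rw [this, add_zero]
      have hf0 := Int.fract_nonneg x0
      have hf1 := Int.fract_lt_one x0
      change Om b α (fun x => ‖x‖ + q x) (x0 : Circ) = _ at hx
      change (x0 : Circ) = _ ∨ (x0 : Circ) = _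
      rw [hfr] at hx ⊢
      set x1 := Int.fract x0
      rcases le_or_gt x1 (1 / 2) with h1 | h1
      · left
        by_contra hne
        have h2 := c1 x1 hf0 h1 (fun h => hne (by rw [h]))
        rw [hx, sub_self, mul_zero] at h2
        exact lt_irrefl _ h2
      · right
        have e : (x1 : Circ) = ((-(1 - x1) : ℝ) : Circ) := by
          have : -(1 - x1) = x1 - 1 := by ring
          rw [this, AddCircle.coe_sub]
          have : ((1 : ℝ) : Circ) = 0 := AddCircle.coe_period (1 : ℝ)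
          rw [this, sub_zero]
        rw [e] at hx ⊢
        by_contra hne
        have h2 := c2 (1 - x1) (by linarith) (by linarith) (fun h => hne (by rw [h]))
        rw [AddCircle.coe_neg, ← hrefl] at hx
        rw [hx, heq, sub_self, mul_zero] at h2
        exact lt_irrefl _ h2
    · rintro (h | h)
      · rw [h]
      · rw [h, heq, hrefl, AddCircle.coe_neg]

end assemble

/-- nonempty open sets are not shy. -/
lemma not_shy_of_open {A U : Set LipSpace} (hU : IsOpen U) (hne : U.Nonempty) (hUA : U ⊆ A) :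
    ¬ Shy A := by
  rintro ⟨μ, B, hB, hAB, ⟨K, hK, hK0, hK1⟩, hμ⟩
  obtain ⟨g, hg⟩ := hne
  obtain ⟨t, ht⟩ := hK.elim_finite_subcover
    (fun x : LipSpace => (fun y => (x - g) + y) '' U) (fun x => by
      exact (Homeomorph.addLeft (x - g)).isOpenMap U hU)
    (fun x _ => mem_iUnion.mpr ⟨x, g, hg, by simp⟩)
  have h0 : μ K = 0 := by
    refine measure_mono_null ht ?_
    refine (measure_biUnion_null_iff t.countable_toSet).mpr ?_
    intro x _
    refine measure_mono_null (image_mono ?_) (hμ (x - g))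
    exact hUA.trans hAB
  exact hK0.ne' h0

/-- the family: all `b, α` with `3b/4 ≤ b^α ≤ b - 7`. -/
lemma family (b : ℕ) (hb : 2 ≤ b) (α : ℝ) (h0 : 0 < α) (h1 : α < 1)
    (hlow : 3 * (b : ℝ) / 4 ≤ (b : ℝ) ^ α) (hup : (b : ℝ) ^ α ≤ b - 7) :
    ∃ U : Set LipSpace, IsOpen U ∧ U.Nonempty ∧ ∀ g ∈ U,
      (∃ y ∈ interior (range (W b α g.fn)), ∃ p q : Circ, W b α g.fn ⁻¹' {y} = {p, q} ∧
        dimH (W b α g.fn ⁻¹' {y}) ≠ ENNReal.ofReal (1 - α)) := by
  have hb0 : (0 : ℝ) < b := by exact_mod_cast (by omega : 0 < b)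
  have hb28 : (28 : ℝ) ≤ b := by linarith
  have hb28' : 28 ≤ b := by exact_mod_cast hb28
  have hbα : 0 < (b : ℝ) ^ α := Real.rpow_pos_of_pos hb0 _
  set r := (b : ℝ) ^ (-α) with hr
  have hrinv : r = ((b : ℝ) ^ α)⁻¹ := by rw [hr, Real.rpow_neg hb0.le]
  have hr0 : 0 < r := r_pos hb
  have hrb : r * (b : ℝ) ^ α = 1 := by rw [hrinv]; exact inv_mul_cancel₀ hbα.ne'
  set η : ℝ := 1 / (2 * (b : ℝ) ^ 2) with hη
  have hη0 : 0 < η := by positivity
  have hP : Par b r η := by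
    refine ⟨hb28', hr0, ?_, ?_, ?_, hη0.le, ?_⟩
    · rw [← hrb]; exact mul_lt_mul_of_pos_left (by linarith) hr0
    · have : r * (3 * (b : ℝ) / 4) ≤ 1 := by
        rw [← hrb]; exact mul_le_mul_of_nonneg_left hlow hr0.le
      linarith
    · rw [← hrb]; exact mul_le_mul_of_nonneg_left hup hr0.le
    · rw [hη, one_div_mul_cancel (by positivity)]
  have hK1 := hP.K1
  have hKpos : 0 < r * b - 1 := by linarith
  set A := 1 / (r * b - 1) with hA
  have hApos : 0 < A := by positivity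
  -- the centre of the ball
  have hnsm : ∀ x y : Circ, dist (b • x) (b • y) ≤ b * dist x y := by
    intro x y
    rw [dist_eq_norm, dist_eq_norm, ← smul_sub]
    have := norm_nsmul_le (n := b) (a := x - y)
    simpa using this
  have hGlip : ∀ x y : Circ, |((1 + A) * ‖x‖ - A * r * ‖b • x‖) -
      ((1 + A) * ‖y‖ - A * r * ‖b • y‖)| ≤ ((1 + A) + A * r * b) * dist x y := by
    intro x y
    have e : ((1 + A) * ‖x‖ - A * r * ‖b • x‖) - ((1 + A) * ‖y‖ - A * r * ‖b • y‖) =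
        (1 + A) * (‖x‖ - ‖y‖) - A * r * (‖b • x‖ - ‖b • y‖) := by ring
    rw [e]
    refine (abs_sub _ _).trans ?_
    rw [abs_mul, abs_mul, abs_of_pos (by linarith : 0 < 1 + A),
      abs_of_pos (by positivity : 0 < A * r)]
    have h2 := abs_norm_sub_norm_le x y
    have h3 := abs_norm_sub_norm_le (b • x) (b • y)
    rw [← dist_eq_norm] at h2 h3
    have h4 := mul_le_mul_of_nonneg_left h2 (by linarith : 0 ≤ 1 + A)
    have h5 := mul_le_mul_of_nonneg_left (h3.trans (hnsm x y)) (by positivity : 0 ≤ A * r)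
    linarith
  set G : LipSpace := ⟨fun x => (1 + A) * ‖x‖ - A * r * ‖b • x‖,
    Real.toNNReal ((1 + A) + A * r * b), by
      refine LipschitzWith.of_dist_le_mul fun x y => ?_
      rw [Real.dist_eq, Real.coe_toNNReal _ (by positivity)]
      exact hGlip x y⟩ with hG
  refine ⟨Metric.ball G η, Metric.isOpen_ball, ⟨G, Metric.mem_ball_self hη0⟩, ?_⟩
  intro g hg
  rw [Metric.mem_ball, dist_eq_norm] at hg
  set p : LipSpace := g - G with hp
  have hpx : ∀ x, g.fn x = ((1 + A) * ‖x‖ - A * r * ‖b • x‖) + p.fn x := by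
    intro x
    have : p.fn x = g.fn x - ((1 + A) * ‖x‖ - A * r * ‖b • x‖) := rfl
    rw [this]; ring
  have hplip : ∀ x y : Circ, |p.fn x - p.fn y| ≤ η * dist x y := by
    intro x y
    have h2 := le_ciSup p.bdd2 (x, y)
    have h3 : (⨆ q : Circ × Circ, |p.fn q.1 - p.fn q.2| / dist q.1 q.2) ≤ ‖p‖ := by
      rw [LipSpace.norm_def]
      have : 0 ≤ ⨆ x : Circ, |p.fn x| := Real.iSup_nonneg fun x => abs_nonneg _
      linarith
    simp only at h2
    rcases (dist_nonneg (x := x) (y := y)).lt_or_eq with h4 | h4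
    · rw [← div_le_iff₀ h4]
      linarith
    · have : x = y := dist_eq_zero.mp h4.symm
      rw [this]
      simp
  obtain ⟨B, hB⟩ : ∃ B : ℝ, ∀ x, |p.fn x| ≤ B := by
    obtain ⟨B, hB⟩ := p.bdd1
    exact ⟨B, fun x => hB ⟨x, rfl⟩⟩
  -- `W_g = A ‖x‖ + W_f`
  have hWg : W b α g.fn = Om b α (fun x => ‖x‖ + p.fn x) := by
    funext x
    have hBn : ∀ x : Circ, |(fun x : Circ => ‖x‖) x| ≤ 1 / 2 := fun x => by
      simp only [abs_norm]; exact norm_le_half x
    have hBf : ∀ x : Circ, |(fun x => ‖x‖ + p.fn x) x| ≤ 1 / 2 + B := fun x =>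
      (abs_add_le _ _).trans (add_le_add (by rw [abs_norm]; exact norm_le_half x) (hB x))
    have h2 := W_func hb h0 hBn x
    have s1 := W_summable hb h0 hBf x
    have s2 := W_summable hb h0 hBn x
    have s3 := W_summable hb h0 hBn (b • x)
    unfold Om
    rw [← hr, ← hA]
    have h3 : W b α g.fn x = W b α (fun x => ‖x‖ + p.fn x) x +
        (A * W b α (fun x : Circ => ‖x‖) x - A * r * W b α (fun x : Circ => ‖x‖) (b • x)) := by
      rw [W_eq hb, W_eq hb, W_eq hb, W_eq hb, ← tsum_mul_left, ← tsum_mul_left,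
        ← Summable.tsum_sub (s2.mul_left A) (s3.mul_left (A * r)),
        ← Summable.tsum_add s1 ((s2.mul_left A).sub (s3.mul_left (A * r)))]
      refine tsum_congr fun k => ?_
      rw [hpx, smul_comm b (b ^ k) x]
      ring
    rw [h3]
    rw [h2]
    ring
  obtain ⟨v, v', hv0, hv1, hv0', hv1', hlt1, hlt2, hiff⟩ := two_points hP h0 hplip hB
  rw [← hWg] at hlt1 hlt2 hiff
  have hset : W b α g.fn ⁻¹' {W b α g.fn (v : Circ)} = {(v : Circ), ((-v' : ℝ) : Circ)} := by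
    ext x
    simp only [mem_preimage, mem_singleton_iff, mem_insert_iff]
    exact hiff x
  refine ⟨W b α g.fn (v : Circ), ?_, _, _, hset, ?_⟩
  · rw [mem_interior]
    refine ⟨Ioo (W b α g.fn 0) (W b α g.fn ((1 / 2 : ℝ) : Circ)), ?_, isOpen_Ioo, hlt1, hlt2⟩
    obtain ⟨K, hK⟩ := g.lip
    obtain ⟨C, hC⟩ := g.bdd1
    have hcont : Continuous (W b α g.fn) := W_cont hb h0 (fun x => hC ⟨x, rfl⟩) hK.continuous
    have h2 : Continuous (fun x : ℝ => W b α g.fn (x : Circ)) :=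
      hcont.comp (AddCircle.continuous_mk' (1 : ℝ))
    have h3 := intermediate_value_Icc (by norm_num : (0 : ℝ) ≤ 1 / 2) h2.continuousOn
    intro z hz
    rw [AddCircle.coe_zero] at h3
    obtain ⟨x, -, hx⟩ := h3 ⟨hz.1.le, hz.2.le⟩
    exact ⟨(x : Circ), hx⟩
  · rw [hset]
    have : ({(v : Circ), ((-v' : ℝ) : Circ)} : Set Circ).Finite := toFinite _
    rw [this.dimH_zero]
    have : 0 < ENNReal.ofReal (1 - α) := ENNReal.ofReal_pos.mpr (by linarith)
    exact this.ne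

/-- **Theorem.** (i) For all integers `b ≥ 2` and all `0 < α < 1` with `3b/4 ≤ b^α ≤ b - 7` there is a
nonempty open set `U` of `Lip(S¹)` such that every `g` in `U` has an interior level `y` whose level
set consists of (at most) two points, so that its Hausdorff dimension is not `1 - α`, and the set of
the `g` with the property of Q1 is not prevalent. (ii) Such `b` and `α` exist. -/
theorem result :
    (∀ b : ℕ, 2 ≤ b → ∀ α : ℝ, 0 < α → α < 1 → 3 * (b : ℝ) / 4 ≤ (b : ℝ) ^ α →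
      (b : ℝ) ^ α ≤ b - 7 →
      (∃ U : Set LipSpace, IsOpen U ∧ U.Nonempty ∧ ∀ g ∈ U,
        (∃ y ∈ interior (range (W b α g.fn)), ∃ p q : Circ, W b α g.fn ⁻¹' {y} = {p, q} ∧
          dimH (W b α g.fn ⁻¹' {y}) ≠ ENNReal.ofReal (1 - α))) ∧
      ¬ Prevalent {g : LipSpace | Good b α g}) ∧
    (∃ b : ℕ, 2 ≤ b ∧ ∃ α : ℝ, 0 < α ∧ α < 1 ∧ 3 * (b : ℝ) / 4 ≤ (b : ℝ) ^ α ∧
      (b : ℝ) ^ α ≤ b - 7) := by
  refine ⟨?_, ?_⟩
  · intro b hb α h0 h1 hlow hup
    obtain ⟨U, hU, hne, hall⟩ := family b hb α h0 h1 hlow hup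
    refine ⟨⟨U, hU, hne, hall⟩, ?_⟩
    refine not_shy_of_open hU hne ?_
    intro g hg hcon
    obtain ⟨y, hy, p, q, -, hd⟩ := hall g hg
    exact hd (hcon y hy)
  · refine ⟨40, by norm_num, Real.log 30 / Real.log 40, ?_, ?_, ?_⟩
    · exact div_pos (Real.log_pos (by norm_num)) (Real.log_pos (by norm_num))
    · rw [div_lt_one (Real.log_pos (by norm_num))]
      exact Real.log_lt_log (by norm_num) (by norm_num)
    · have h40 : ((40 : ℕ) : ℝ) ^ (Real.log 30 / Real.log 40) = 30 := by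
        have hl : Real.log 40 ≠ 0 := (Real.log_pos (by norm_num)).ne'
        push_cast
        rw [Real.rpow_def_of_pos (by norm_num), mul_div_cancel₀ _ hl,
          Real.exp_log (by norm_num)]
      rw [h40]
      norm_num

end Pool.Agent.Results.MP_935c4d_an.TwoPointLevels
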